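import Pool.Agent.W76.MO.Stmts

set_option autoImplicit false

/-!
# Task ES: the Euler product sum is small
-/

namespace Pool.Agent.W280.MO

open Finset Filter Topology
open scoped Classical
open Pool.Agent.W76.MO

lemma tail_small {δ ε : ℝ} (hδ : 0 < δ) (hε : 0 < ε) :
    ∃ R₀ : ℕ, ∀ P : Finset ℕ, (∀ p ∈ P, R₀ ≤ p) → ∑ p ∈ P, (p : ℝ) ^ (-1 - δ / 2) ≤ ε := by
  have hs : Summable (fun n : ℕ => (n : ℝ) ^ (-1 - δ / 2)) :=
    Real.summable_nat_rpow.2 (by linarith)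
  obtain ⟨s, hs⟩ := (summable_iff_vanishing_norm.1 hs) ε hε
  refine ⟨s.sup id + 1, fun P hP => ?_⟩
  have h1 := hs P (by
    rw [Finset.disjoint_left]
    intro p hp hps
    have h2 : p ≤ s.sup id := Finset.le_sup (f := id) hps
    have h3 := hP p hp
    omega)
  exact (le_abs_self _).trans h1.le

theorem T_ES_proof : T_ES := by
  intro E hGB η hη
  obtain ⟨J, hJ1, hJ⟩ := hGB
  set ε := min 1 η / 4 with hε
  have hm : 0 < min 1 η := lt_min one_pos hη
  have hε0 : 0 < ε := by positivity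
  obtain ⟨R₀, hR₀⟩ := tail_small E.hδ hε0
  refine ⟨R₀, fun R hR => ?_⟩
  obtain ⟨J', hJ'⟩ := exists_nat_gt (4 / ε)
  refine ⟨max J J', fun j hj M => ?_⟩
  obtain ⟨-, hgu, hgh, -, -, -, -, hsh, hsu⟩ := hJ j ((le_max_left _ _).trans hj)
  have hj0 : (0 : ℝ) < j := by
    have : 1 ≤ j := hJ1.trans ((le_max_left _ _).trans hj)
    exact_mod_cast this
  have hjε : 4 / (j : ℝ) ≤ ε := by
    have h1 : (J' : ℝ) ≤ j := by exact_mod_cast (le_max_right _ _).trans hj
    have h2 : 4 / ε < j := hJ'.trans_le h1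
    rw [div_lt_iff₀ hε0] at h2
    rw [div_le_iff₀ hj0]
    linarith
  set a : ℕ → ℝ := fun p => (1 + 2 * (p * E.g j p)) * (p : ℝ) ^ (-1 - E.δ / 2) with ha
  have hg0 : ∀ p, 0 ≤ E.g j p := fun p => add_nonneg (hgu p) (hgh p)
  have ha0 : ∀ p, 0 ≤ a p := fun p =>
    mul_nonneg (by have := hg0 p; positivity) (Real.rpow_nonneg (by positivity) _)
  set P : Finset ℕ := (Icc R M).filter Nat.Prime with hP
  -- the sum of the `a p`
  have hsum : ∑ p ∈ P, a p ≤ 2 * ε := by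
    have h1 : ∑ p ∈ P, (p : ℝ) ^ (-1 - E.δ / 2) ≤ ε := hR₀ P (fun p hp => by
      rw [hP, mem_filter, mem_Icc] at hp
      exact hR.trans hp.1.1)
    have h2 : ∀ p ∈ P, a p ≤ (p : ℝ) ^ (-1 - E.δ / 2) + 2 * (E.gu j p * (p : ℝ) ^ (-E.δ / 2)) +
        2 * ((p * E.gh j p) * (p : ℝ) ^ (-1 + E.τ / 4)) := by
      intro p hp
      rw [hP, mem_filter] at hp
      have hp1 : (1 : ℝ) ≤ p := by exact_mod_cast hp.2.one_lt.le
      have hp0 : (0 : ℝ) < p := by linarith
      have e1 : (p : ℝ) * (p : ℝ) ^ (-1 - E.δ / 2) = (p : ℝ) ^ (-E.δ / 2) := by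
        nth_rewrite 1 [← Real.rpow_one (p : ℝ)]
        rw [← Real.rpow_add hp0]
        congr 1; ring
      have e2 : (p : ℝ) ^ (-1 - E.δ / 2) ≤ (p : ℝ) ^ (-1 + E.τ / 4) :=
        Real.rpow_le_rpow_of_exponent_le hp1 (by have := E.hδ; have := E.hτ; linarith)
      have e3 : a p = (p : ℝ) ^ (-1 - E.δ / 2) +
          2 * (E.gu j p * ((p : ℝ) * (p : ℝ) ^ (-1 - E.δ / 2))) +
          2 * ((p * E.gh j p) * (p : ℝ) ^ (-1 - E.δ / 2)) := by
        simp only [ha, Env.g]; ring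
      rw [e3, e1]
      have e4 : (p * E.gh j p) * (p : ℝ) ^ (-1 - E.δ / 2) ≤
          (p * E.gh j p) * (p : ℝ) ^ (-1 + E.τ / 4) :=
        mul_le_mul_of_nonneg_left e2 (mul_nonneg hp0.le (hgh p))
      linarith
    refine (Finset.sum_le_sum h2).trans ?_
    rw [Finset.sum_add_distrib, Finset.sum_add_distrib, ← Finset.mul_sum, ← Finset.mul_sum]
    have h3 := hsu P
    have h4 := hsh P
    have h5 : 4 / (j : ℝ) = 4 * (1 / j) := by ring
    linarith
  -- the terms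
  have hterm : ∀ t ∈ (Icc 2 M).filter (fun t => Squarefree t ∧ Rough R t),
      E.E2 j t / t * (t : ℝ) ^ (-E.δ / 2) = ∏ p ∈ t.primeFactors, a p := by
    intro t ht
    rw [mem_filter, mem_Icc] at ht
    obtain ⟨⟨ht2, htM⟩, hsq, hro⟩ := ht
    have ht0 : (0 : ℝ) < t := by
      have : 0 < t := by omega
      exact_mod_cast this
    have e0 : (∏ p ∈ t.primeFactors, (p : ℝ)) = t := by
      have h9 := congrArg (fun n : ℕ => (n : ℝ)) (Nat.prod_primeFactors_of_squarefree hsq)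
      simp only [Nat.cast_prod] at h9
      exact h9
    have e1 : (t : ℝ) ^ (-1 - E.δ / 2) = ∏ p ∈ t.primeFactors, (p : ℝ) ^ (-1 - E.δ / 2) := by
      rw [Real.finsetProd_rpow _ _ (fun p _ => by positivity), e0]
    have e2 : E.E2 j t / t * (t : ℝ) ^ (-E.δ / 2) = E.E2 j t * (t : ℝ) ^ (-1 - E.δ / 2) := by
      have e3 : (t : ℝ) ^ (-1 - E.δ / 2) = (t : ℝ)⁻¹ * (t : ℝ) ^ (-E.δ / 2) := by
        rw [← Real.rpow_neg_one, ← Real.rpow_add ht0]
        congr 1; ring
      rw [e3]; ring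
    rw [e2, e1, Env.E2, ← Finset.prod_mul_distrib]
  rw [Finset.sum_congr rfl hterm]
  set F := (Icc 2 M).filter (fun t => Squarefree t ∧ Rough R t) with hF
  have hinj : ∀ t ∈ F, ∀ t' ∈ F, t.primeFactors = t'.primeFactors → t = t' := by
    intro t ht t' ht' h
    rw [hF, mem_filter] at ht ht'
    rw [← Nat.prod_primeFactors_of_squarefree ht.2.1,
      ← Nat.prod_primeFactors_of_squarefree ht'.2.1, h]
  have himg : ∑ t ∈ F, ∏ p ∈ t.primeFactors, a p =
      ∑ S ∈ F.image Nat.primeFactors, ∏ p ∈ S, a p := by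
    rw [Finset.sum_image]
    intro t ht t' ht' h
    exact hinj t ht t' ht' h
  have hsub : F.image Nat.primeFactors ⊆ P.powerset.erase ∅ := by
    intro S hS
    obtain ⟨t, ht, rfl⟩ := Finset.mem_image.1 hS
    rw [hF, mem_filter, mem_Icc] at ht
    obtain ⟨⟨ht2, htM⟩, hsq, hro⟩ := ht
    rw [Finset.mem_erase, Finset.mem_powerset]
    refine ⟨?_, ?_⟩
    · intro h
      rw [Nat.primeFactors_eq_empty] at h
      omega
    · intro p hp
      have hpp := Nat.prime_of_mem_primeFactors hp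
      have hpd := Nat.dvd_of_mem_primeFactors hp
      rw [hP, mem_filter, mem_Icc]
      refine ⟨⟨?_, ?_⟩, hpp⟩
      · have := hro p hpp hpd
        exact_mod_cast this
      · exact (Nat.le_of_dvd (by omega) hpd).trans htM
  rw [himg]
  refine (Finset.sum_le_sum_of_subset_of_nonneg hsub
    (fun S _ _ => Finset.prod_nonneg fun p _ => ha0 p)).trans ?_
  have h1 : ∑ S ∈ P.powerset.erase ∅, ∏ p ∈ S, a p = (∏ p ∈ P, (1 + a p)) - 1 := by
    have h2 := Finset.prod_one_add (s := P) (f := a)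
    have h3 := Finset.add_sum_erase P.powerset (fun S => ∏ p ∈ S, a p) (a := ∅)
      (Finset.empty_mem_powerset P)
    rw [Finset.prod_empty] at h3
    rw [h2]
    linarith
  rw [h1]
  have h4 : ∏ p ∈ P, (1 + a p) ≤ Real.exp (∑ p ∈ P, a p) := by
    rw [Real.exp_sum]
    refine Finset.prod_le_prod (fun p _ => by have := ha0 p; positivity) (fun p _ => ?_)
    have := Real.add_one_le_exp (a p)
    linarith
  have hs0 : 0 ≤ ∑ p ∈ P, a p := Finset.sum_nonneg fun p _ => ha0 p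
  have hmin1 : min 1 η ≤ 1 := min_le_left _ _
  have hmin2 : min 1 η ≤ η := min_le_right _ _
  have hs1 : ∑ p ∈ P, a p ≤ 1 := by
    have : 2 * ε ≤ 1 := by rw [hε]; linarith
    linarith
  have h5 := Real.abs_exp_sub_one_le (x := ∑ p ∈ P, a p) (by rw [abs_of_nonneg hs0]; exact hs1)
  rw [abs_of_nonneg hs0] at h5
  have h6 := (le_abs_self _).trans h5
  have h7 : 2 * (2 * ε) ≤ η := by rw [hε]; linarith
  linarith

end Pool.Agent.W280.MO
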